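import Mathlib
import Pool.Agent.Helper669.VFinal

set_option autoImplicit false
set_option linter.all false

/-!
# A forcing notion for the failure of the polarized relation
`(lam⁺, lam⁺⁺) → ((lam⁺, lam⁺), (lam, lam))`, preserving cardinals and GCH

A condition is an approximation of size at most `lam` of a matrix with `lam⁺` rows and `lam⁺⁺`
columns, together with at most `lam` promises: sets of `lam` columns which are not constant on any
new row.
-/

namespace Pool.Agent.V8H48.PN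

open Cardinal Order Set
open Pool.Agent.Helper669.Forcing Pool.Agent.Helper669.K Pool.Agent.Helper669.U
  Pool.Agent.Helper669.V

/-- A condition: rows below `a`, columns in `b`, the graph `G` of the matrix, promises `F`. -/
structure PK (K M : Type) [LinearOrder K] (lam : Cardinal.{0}) where
  a : K
  b : Set M
  G : Set (K × M)
  F : Set (Set M)
  hb : #b ≤ lam
  hG : ∀ z ∈ G, z.1 < a ∧ z.2 ∈ b
  hF : #F ≤ lam
  hFb : ∀ B ∈ F, B ⊆ b ∧ lam ≤ #B

section

variable {K M : Type} [LinearOrder K] {lam : Cardinal.{0}}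

instance : Preorder (PK K M lam) where
  le q p := p.a ≤ q.a ∧ p.b ⊆ q.b ∧ (∀ x < p.a, ∀ y ∈ p.b, (x, y) ∈ q.G ↔ (x, y) ∈ p.G) ∧
    p.F ⊆ q.F ∧ ∀ x, p.a ≤ x → x < q.a → ∀ B ∈ p.F,
      (∃ y ∈ B, (x, y) ∈ q.G) ∧ ∃ y ∈ B, (x, y) ∉ q.G
  le_refl p := ⟨le_rfl, subset_rfl, fun _ _ _ _ => Iff.rfl, subset_rfl,
    fun x h1 h2 => absurd h2 (not_lt.2 h1)⟩
  le_trans r q p h h' := by
    obtain ⟨h1, h2, h3, h4, h5⟩ := h
    obtain ⟨g1, g2, g3, g4, g5⟩ := h'
    refine ⟨g1.trans h1, g2.trans h2, fun x hx y hy => ?_, g4.trans h4, fun x hx hx' B hB => ?_⟩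
    · exact (h3 x (hx.trans_le g1) y (g2 hy)).trans (g3 x hx y hy)
    · rcases lt_or_ge x q.a with hxq | hxq
      · obtain ⟨⟨y, hy, hy1⟩, y', hy', hy1'⟩ := g5 x hx hxq B hB
        have hBb : B ⊆ q.b := (p.hFb B hB).1.trans g2
        exact ⟨⟨y, hy, (h3 x hxq y (hBb hy)).2 hy1⟩, y', hy', fun h =>
          hy1' ((h3 x hxq y' (hBb hy')).1 h)⟩
      · exact h5 x hxq hx' B (g4 hB)

theorem le_def {q p : PK K M lam} : q ≤ p ↔ p.a ≤ q.a ∧ p.b ⊆ q.b ∧
    (∀ x < p.a, ∀ y ∈ p.b, (x, y) ∈ q.G ↔ (x, y) ∈ p.G) ∧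
    p.F ⊆ q.F ∧ ∀ x, p.a ≤ x → x < q.a → ∀ B ∈ p.F,
      (∃ y ∈ B, (x, y) ∈ q.G) ∧ ∃ y ∈ B, (x, y) ∉ q.G := Iff.rfl

/-- At most `lam` sets of size at least `lam` can be split. -/
theorem exists_split (h0 : ℵ₀ ≤ lam) (F : Set (Set M)) (hF : #F ≤ lam)
    (hF' : ∀ B ∈ F, lam ≤ #B) :
    ∃ S : Set M, ∀ B ∈ F, (∃ y ∈ B, y ∈ S) ∧ ∃ y ∈ B, y ∉ S := by
  classical
  rcases F.eq_empty_or_nonempty with rfl | hne
  · exact ⟨∅, fun B hB => absurd hB (notMem_empty B)⟩
  have hle : #F ≤ #(lam.ord.ToType) := by rw [mk_ord_toType]; exact hF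
  obtain ⟨e⟩ := hle
  haveI : Nonempty F := hne.to_subtype
  have hsurj : Function.Surjective (Function.invFun e) := Function.invFun_surjective e.injective
  let Bf : lam.ord.ToType → Set M := fun i => (Function.invFun e i).1
  have hBf : ∀ i, lam ≤ #(Bf i) := fun i => hF' _ (Function.invFun e i).2
  have hM : Nonempty M := by
    obtain ⟨B, hB⟩ := hne
    have h1 : #B ≠ 0 := fun h => by
      have := hF' B hB
      rw [h] at this
      exact absurd (aleph0_pos.trans_le h0) (not_lt.2 this)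
    obtain ⟨y⟩ := mk_ne_zero_iff.1 h1
    exact ⟨y.1⟩
  obtain ⟨f, hf⟩ := Pool.Agent.Helper669.KDelta.rec_choice (ι := lam.ord.ToType) (β := M × M)
    (r := (· < ·)) wellFounded_lt
    (fun i f b => b.1 ∈ Bf i ∧ b.2 ∈ Bf i ∧ b.1 ≠ b.2 ∧ ∀ j < i, b.1 ≠ (f j).2 ∧ b.2 ≠ (f j).1)
    (by
      intro i f g b hfg h
      refine ⟨h.1, h.2.1, h.2.2.1, fun j hj => ?_⟩
      rw [← hfg j hj]
      exact h.2.2.2 j hj)
    (by
      intro i f _
      let E : Set M := (fun j => (f j).1) '' Iio i ∪ (fun j => (f j).2) '' Iio i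
      have hi : #(Iio i) < lam := mk_Iio_toType_ord_lt i
      have hE : #E < lam := by
        refine (mk_union_le _ _).trans_lt (add_lt_of_lt h0 ?_ ?_)
        · exact mk_image_le.trans_lt hi
        · exact mk_image_le.trans_lt hi
      have hX : ¬ (Bf i \ E).Finite := by
        intro hfin
        have h1 : #(Bf i) ≤ #(Bf i \ E : Set M) + #E := by
          refine (mk_le_mk_of_subset (t := (Bf i \ E) ∪ E) ?_).trans (mk_union_le _ _)
          intro x hx
          by_cases hxE : x ∈ E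
          · exact Or.inr hxE
          · exact Or.inl ⟨hx, hxE⟩
        rcases eq_or_lt_of_le h0 with h00 | h00
        · have h2 : #(Bf i \ E : Set M) + #E < lam := by
            rw [← h00]
            refine add_lt_aleph0 hfin.lt_aleph0 ?_
            rw [h00]
            exact hE
          exact absurd (h1.trans_lt h2) (not_lt.2 (hBf i))
        · have h2 : #(Bf i \ E : Set M) + #E < lam :=
            add_lt_of_lt h0 (hfin.lt_aleph0.trans h00) hE
          exact absurd (h1.trans_lt h2) (not_lt.2 (hBf i))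
      obtain ⟨u, hu⟩ := Set.Infinite.nonempty (s := Bf i \ E) hX
      obtain ⟨v, hv⟩ := Set.Infinite.nonempty
        (s := (Bf i \ E) \ {u}) (Set.Infinite.sdiff hX (finite_singleton u))
      refine ⟨(u, v), hu.1, hv.1.1, fun h => hv.2 h.symm, fun j hj => ⟨fun h => ?_, fun h => ?_⟩⟩
      · exact hu.2 (Or.inr ⟨j, hj, h.symm⟩)
      · exact hv.1.2 (Or.inl ⟨j, hj, h.symm⟩))
  refine ⟨range fun i => (f i).1, fun B hB => ?_⟩
  obtain ⟨i, hi⟩ := hsurj ⟨B, hB⟩
  have hBi : Bf i = B := by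
    show (Function.invFun e i).1 = B
    rw [hi]
  obtain ⟨h1, h2, h3, h4⟩ := hf i
  rw [hBi] at h1 h2
  refine ⟨⟨(f i).1, h1, i, rfl⟩, (f i).2, h2, ?_⟩
  rintro ⟨j, hj⟩
  rcases lt_trichotomy i j with h | h | h
  · exact (hf j).2.2.2 i h |>.1 hj
  · subst h
    exact h3 hj
  · exact (h4 j h).2 hj.symm

/-- Rows can be added. -/
theorem exists_row (h0 : ℵ₀ ≤ lam) (p : PK K M lam) (a' : K) (ha : p.a ≤ a') :
    ∃ q ≤ p, q.a = a' := by
  classical
  obtain ⟨S, hS⟩ := exists_split h0 p.F p.hF (fun B hB => (p.hFb B hB).2)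
  refine ⟨⟨a', p.b, {z | z ∈ p.G ∨ (p.a ≤ z.1 ∧ z.1 < a' ∧ z.2 ∈ p.b ∧ z.2 ∈ S)}, p.F, p.hb, ?_,
    p.hF, p.hFb⟩, ?_, rfl⟩
  · rintro z (hz | hz)
    · exact ⟨(p.hG z hz).1.trans_le ha, (p.hG z hz).2⟩
    · exact ⟨hz.2.1, hz.2.2.1⟩
  · refine ⟨ha, subset_rfl, fun x hx y hy => ⟨?_, fun h => Or.inl h⟩, subset_rfl,
      fun x hx hx' B hB => ⟨?_, ?_⟩⟩
    · rintro (h | h)
      · exact h
      · exact absurd hx (not_lt.2 h.1)
    · obtain ⟨⟨y, hy, hyS⟩, -⟩ := hS B hB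
      exact ⟨y, hy, Or.inr ⟨hx, hx', (p.hFb B hB).1 hy, hyS⟩⟩
    · obtain ⟨-, y, hy, hyS⟩ := hS B hB
      refine ⟨y, hy, ?_⟩
      rintro (h | h)
      · exact absurd (p.hG _ h).1 (not_lt.2 hx)
      · exact hyS h.2.2.2

/-- Promises can be made. -/
theorem exists_promise (h0 : ℵ₀ ≤ lam) (p : PK K M lam) (B : Set M) (hB : #B = lam) :
    ∃ q ≤ p, B ∈ q.F := by
  refine ⟨⟨p.a, p.b ∪ B, p.G, insert B p.F, ?_, ?_, ?_, ?_⟩, ?_, mem_insert _ _⟩
  · exact (mk_union_le _ _).trans ((add_le_add p.hb hB.le).trans (add_eq_self h0).le)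
  · exact fun z hz => ⟨(p.hG z hz).1, Or.inl (p.hG z hz).2⟩
  · refine mk_insert_le.trans ?_
    exact (add_le_add p.hF (one_le_aleph0.trans h0)).trans (add_eq_self h0).le
  · rintro B' (rfl | hB')
    · exact ⟨subset_union_right, hB.ge⟩
    · exact ⟨(p.hFb B' hB').1.trans subset_union_left, (p.hFb B' hB').2⟩
  · exact ⟨le_rfl, subset_union_left, fun _ _ _ _ => Iff.rfl, subset_insert _ _,
      fun x h1 h2 => absurd h2 (not_lt.2 h1)⟩

/-- The forcing notion is `lam⁺`-directed closed. -/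
theorem dirClosed [WellFoundedLT K] (h0 : ℵ₀ ≤ lam)
    (hK : ∀ S : Set K, #S ≤ lam → ∃ a, ∀ s ∈ S, s ≤ a) :
    DirClosed (succ lam) (PK K M lam) := by
  classical
  intro D hD hne hdir
  rw [Order.lt_succ_iff] at hD
  have hbd : ∃ a, ∀ d ∈ D, d.a ≤ a := by
    obtain ⟨a, ha⟩ := hK ((fun d : PK K M lam => d.a) '' D) (mk_image_le.trans hD)
    exact ⟨a, fun d hd => ha _ ⟨d, hd, rfl⟩⟩
  obtain ⟨a, ha1, ha2⟩ : ∃ a, (∀ d ∈ D, d.a ≤ a) ∧ ∀ x < a, ∃ d ∈ D, x < d.a := by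
    refine ⟨wellFounded_lt.min {a | ∀ d ∈ D, d.a ≤ a} hbd,
      WellFounded.min_mem wellFounded_lt {a | ∀ d ∈ D, d.a ≤ a} hbd, fun x hx => ?_⟩
    by_contra hcon
    push Not at hcon
    exact WellFounded.not_lt_min wellFounded_lt {a | ∀ d ∈ D, d.a ≤ a} hcon hx
  have small : ∀ {β : Type} (f : PK K M lam → Set β), (∀ d ∈ D, #(f d) ≤ lam) →
      #(⋃ d ∈ D, f d) ≤ lam := fun f hf =>
    Pool.Agent.Helper669.KDelta.small_biUnion h0 D hD f hf
  refine ⟨⟨a, ⋃ d ∈ D, d.b, {z | ∃ d ∈ D, z ∈ d.G}, {B | ∃ d ∈ D, B ∈ d.F},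
    small _ fun d _ => d.hb, ?_, ?_, ?_⟩, ?_⟩
  · rintro z ⟨d, hd, hz⟩
    exact ⟨(d.hG z hz).1.trans_le (ha1 d hd), mem_biUnion hd (d.hG z hz).2⟩
  · have h1 : {B | ∃ d ∈ D, B ∈ d.F} = ⋃ d ∈ D, d.F := by
      ext B
      simp
    rw [h1]
    exact small _ fun d _ => d.hF
  · rintro B ⟨d, hd, hB⟩
    exact ⟨(d.hFb B hB).1.trans fun y hy => mem_biUnion hd hy, (d.hFb B hB).2⟩
  · have key : ∀ d ∈ D, ∀ x < d.a, ∀ y ∈ d.b, (∃ e ∈ D, (x, y) ∈ e.G) → (x, y) ∈ d.G := by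
      rintro d hd x hx y hy ⟨e, he, hxy⟩
      obtain ⟨c, hc, hcd, hce⟩ := hdir d hd e he
      have h1 := (hce.2.2.1 x (e.hG _ hxy).1 y (e.hG _ hxy).2).2 hxy
      exact (hcd.2.2.1 x hx y hy).1 h1
    intro d hd
    refine ⟨ha1 d hd, fun y hy => mem_biUnion hd hy, fun x hx y hy => ⟨key d hd x hx y hy,
      fun h => ⟨d, hd, h⟩⟩, fun B hB => ⟨d, hd, hB⟩, fun x hx hx' B hB => ?_⟩
    obtain ⟨e, he, hxe⟩ := ha2 x hx'
    obtain ⟨c, hc, hcd, hce⟩ := hdir d hd e he
    obtain ⟨⟨y, hy, hy1⟩, y', hy', hy1'⟩ := hcd.2.2.2.2 x hx (hxe.trans_le hce.1) B hB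
    refine ⟨⟨y, hy, c, hc, hy1⟩, y', hy', fun h => hy1' ?_⟩
    exact key c hc x (hxe.trans_le hce.1) y' (hcd.2.1 ((d.hFb B hB).1 hy')) h

end

section

variable {K M : Type} [LinearOrder K] {lam : Cardinal.{0}}

theorem pow_aux (h0 : ℵ₀ ≤ lam) (h1 : (2 : Cardinal.{0}) ^ lam = succ lam) :
    succ lam ^ lam = succ lam := by
  rw [← h1, ← power_mul, mul_eq_self h0]

theorem pow_aux2 (h0 : ℵ₀ ≤ lam) (h2 : (2 : Cardinal.{0}) ^ succ lam = succ (succ lam)) :
    succ (succ lam) ^ lam = succ (succ lam) := by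
  rw [← h2, ← power_mul, mul_eq_left (h0.trans (le_succ lam)) (le_succ lam)
    (aleph0_pos.trans_le h0).ne']

theorem card_bdd {X : Type} {c : Cardinal.{0}} (hc : ℵ₀ ≤ c) (hcl : c ^ lam = c)
    (hX : #X ≤ c) : #{s : Set X // #s ≤ lam} ≤ c := by
  refine (mk_bounded_set_le X lam).trans ?_
  rw [← hcl]
  conv_rhs => rw [hcl]
  calc max #X ℵ₀ ^ lam ≤ c ^ lam := power_le_power_right (max_le hX hc)
    _ = c := hcl

/-- the chain condition -/
theorem cc (h0 : ℵ₀ ≤ lam) (h1 : (2 : Cardinal.{0}) ^ lam = succ lam) (hK : #K = succ lam)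
    (hK' : ∀ a : K, #(Iio a) ≤ lam)
    (ι : Type) (f : ι → PK K M lam) (hι : succ (succ lam) ≤ #ι) :
    ∃ i j, i ≠ j ∧ ∃ r, r ≤ f i ∧ r ≤ f j := by
  classical
  have hs0 : ℵ₀ ≤ succ lam := h0.trans (le_succ lam)
  obtain ⟨T, R, hT, hR, hTR⟩ := Pool.Agent.Helper669.KDelta.weak_delta hs0
    (E := ι) (not_le.2 (succ_le_iff.1 hι)) (fun i => (f i).b) (fun i => lt_succ_iff.2 (f i).hb)
  have hGs : ∀ p : PK K M lam, #p.G ≤ lam := by
    intro p
    have h2 : p.G ⊆ Iio p.a ×ˢ p.b := fun z hz => p.hG z hz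
    refine (mk_le_mk_of_subset h2).trans ?_
    rw [mk_setProd]
    exact (mul_le_mul' (hK' p.a) p.hb).trans (mul_eq_self h0).le
  let tr : T → K × {s : Set R // #s ≤ lam} × {s : Set (K × R) // #s ≤ lam} := fun i =>
    ((f i).a,
      ⟨{y | y.1 ∈ (f i).b}, by
        refine (mk_le_of_injective (f := fun y : {y : R | y.1 ∈ (f i).b} =>
          (⟨y.1.1, y.2⟩ : (f i).b)) ?_).trans (f i).hb
        intro y y' h
        exact Subtype.ext (Subtype.ext (congrArg (fun z : (f i).b => z.1) h))⟩,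
      ⟨{z | (z.1, z.2.1) ∈ (f i).G}, by
        refine (mk_le_of_injective (f := fun z : {z : K × R | (z.1, z.2.1) ∈ (f i).G} =>
          (⟨(z.1.1, z.1.2.1), z.2⟩ : (f i).G)) ?_).trans (hGs (f i))
        intro y y' h
        have h3 := congrArg (fun z : (f i).G => z.1) h
        simp only [Prod.mk.injEq] at h3
        exact Subtype.ext (Prod.ext h3.1 (Subtype.ext h3.2))⟩)
  have hcard : #(K × {s : Set R // #s ≤ lam} × {s : Set (K × R) // #s ≤ lam}) ≤ succ lam := by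
    have hp := pow_aux h0 h1
    have hKR : #(K × R) ≤ succ lam := by
      rw [mk_prod, lift_id, lift_id, hK]
      exact (mul_le_mul' le_rfl hR).trans (mul_eq_self hs0).le
    rw [mk_prod, lift_id, lift_id, mk_prod, lift_id, lift_id, hK]
    refine (mul_le_mul' le_rfl (mul_le_mul' (card_bdd hs0 hp hR) (card_bdd hs0 hp hKR))).trans ?_
    rw [mul_eq_self hs0, mul_eq_self hs0]
  have hninj : ¬ Function.Injective tr := fun h => hT ((mk_le_of_injective h).trans hcard)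
  simp only [Function.Injective, not_forall] at hninj
  obtain ⟨i, j, hij, hne⟩ := hninj
  have hne' : i.1 ≠ j.1 := fun h => hne (Subtype.ext h)
  have e1 : (f i).a = (f j).a := congrArg Prod.fst hij
  have e3 : ∀ x, ∀ y ∈ R, (x, y) ∈ (f i).G ↔ (x, y) ∈ (f j).G := by
    intro x y hy
    have h3 := congrArg (fun z : K × {s : Set R // #s ≤ lam} × {s : Set (K × R) // #s ≤ lam} =>
      z.2.2.1) hij
    have h4 := Set.ext_iff.1 h3 (x, ⟨y, hy⟩)
    exact h4
  have hsub : (f i).b ∩ (f j).b ⊆ R := hTR i.1 i.2 j.1 j.2 hne'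
  refine ⟨i.1, j.1, hne', ⟨(f i).a, (f i).b ∪ (f j).b, (f i).G ∪ (f j).G, (f i).F ∪ (f j).F,
    ?_, ?_, ?_, ?_⟩, ?_, ?_⟩
  · exact (mk_union_le _ _).trans ((add_le_add (f i).hb (f j).hb).trans (add_eq_self h0).le)
  · rintro z (hz | hz)
    · exact ⟨((f i).hG z hz).1, Or.inl ((f i).hG z hz).2⟩
    · exact ⟨e1 ▸ ((f j).hG z hz).1, Or.inr ((f j).hG z hz).2⟩
  · exact (mk_union_le _ _).trans ((add_le_add (f i).hF (f j).hF).trans (add_eq_self h0).le)
  · rintro B (hB | hB)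
    · exact ⟨((f i).hFb B hB).1.trans subset_union_left, ((f i).hFb B hB).2⟩
    · exact ⟨((f j).hFb B hB).1.trans subset_union_right, ((f j).hFb B hB).2⟩
  · refine ⟨le_rfl, subset_union_left, fun x hx y hy => ⟨?_, fun h => Or.inl h⟩,
      subset_union_left, fun x h1 h2 => absurd h2 (not_lt.2 h1)⟩
    rintro (h | h)
    · exact h
    · exact (e3 x y (hsub ⟨hy, ((f j).hG _ h).2⟩)).2 h
  · refine ⟨e1.symm.le, subset_union_right, fun x hx y hy => ⟨?_, fun h => Or.inr h⟩,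
      subset_union_right, fun x h1 h2 => absurd (e1 ▸ h2) (not_lt.2 h1)⟩
    rintro (h | h)
    · exact (e3 x y (hsub ⟨((f i).hG _ h).2, hy⟩)).1 h
    · exact h

/-- the number of conditions -/
theorem card_le (h0 : ℵ₀ ≤ lam)
    (h2 : (2 : Cardinal.{0}) ^ succ lam = succ (succ lam)) (hK : #K = succ lam)
    (hK' : ∀ a : K, #(Iio a) ≤ lam) (hM : #M = succ (succ lam)) :
    #(PK K M lam) ≤ succ (succ lam) := by
  classical
  have hs0 : ℵ₀ ≤ succ (succ lam) := (h0.trans (le_succ lam)).trans (le_succ _)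
  have hp := pow_aux2 h0 h2
  have hGs : ∀ p : PK K M lam, #p.G ≤ lam := by
    intro p
    have h2 : p.G ⊆ Iio p.a ×ˢ p.b := fun z hz => p.hG z hz
    refine (mk_le_mk_of_subset h2).trans ?_
    rw [mk_setProd]
    exact (mul_le_mul' (hK' p.a) p.hb).trans (mul_eq_self h0).le
  let SM := {s : Set M // #s ≤ lam}
  have hSM : #SM ≤ succ (succ lam) := card_bdd hs0 hp hM.le
  let tr : PK K M lam → K × SM × {s : Set (K × M) // #s ≤ lam} × {s : Set SM // #s ≤ lam} :=
    fun p => (p.a, ⟨p.b, p.hb⟩, ⟨p.G, hGs p⟩, ⟨{B | B.1 ∈ p.F}, by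
      refine (mk_le_of_injective (f := fun y : {B : SM | B.1 ∈ p.F} =>
          (⟨y.1.1, y.2⟩ : p.F)) ?_).trans p.hF
      intro y y' h
      exact Subtype.ext (Subtype.ext (congrArg (fun z : p.F => z.1) h))⟩)
  have hinj : Function.Injective tr := by
    intro p q h
    have e1 : p.a = q.a := congrArg Prod.fst h
    have e2 : p.b = q.b := congrArg (fun z : K × SM × {s : Set (K × M) // #s ≤ lam} ×
      {s : Set SM // #s ≤ lam} => z.2.1.1) h
    have e3 : p.G = q.G := congrArg (fun z : K × SM × {s : Set (K × M) // #s ≤ lam} ×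
      {s : Set SM // #s ≤ lam} => z.2.2.1.1) h
    have e4 : {B : SM | B.1 ∈ p.F} = {B : SM | B.1 ∈ q.F} :=
      congrArg (fun z : K × SM × {s : Set (K × M) // #s ≤ lam} ×
      {s : Set SM // #s ≤ lam} => z.2.2.2.1) h
    have e5 : p.F = q.F := by
      ext B
      constructor
      · intro hB
        have hs : #B ≤ lam := (mk_le_mk_of_subset (p.hFb B hB).1).trans p.hb
        exact (Set.ext_iff.1 e4 ⟨B, hs⟩).1 hB
      · intro hB
        have hs : #B ≤ lam := (mk_le_mk_of_subset (q.hFb B hB).1).trans q.hb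
        exact (Set.ext_iff.1 e4 ⟨B, hs⟩).2 hB
    cases p; cases q
    simp only at e1 e2 e3 e5
    subst e1 e2 e3 e5
    rfl
  refine (mk_le_of_injective hinj).trans ?_
  have hKM : #(K × M) ≤ succ (succ lam) := by
    rw [mk_prod, lift_id, lift_id, hK, hM]
    exact (mul_le_mul' (le_succ _) le_rfl).trans (mul_eq_self hs0).le
  rw [mk_prod, lift_id, lift_id, mk_prod, lift_id, lift_id, mk_prod, lift_id, lift_id, hK]
  refine (mul_le_mul' (le_succ _) (mul_le_mul' hSM (mul_le_mul' (card_bdd hs0 hp hKM)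
    (card_bdd hs0 hp hSM)))).trans ?_
  rw [mul_eq_self hs0, mul_eq_self hs0, mul_eq_self hs0]

/-- the generic matrix -/
def cN (K M : Type) [LinearOrder K] (lam : Cardinal.{0}) : K → M → Set (PK K M lam) :=
  fun x y => {p | (x, y) ∈ p.G}

theorem down_cN (x : K) (y : M) : Down (cN K M lam x y) := by
  intro p hp q hq
  have hp' : (x, y) ∈ p.G := hp
  exact (hq.2.2.1 x (p.hG _ hp').1 y (p.hG _ hp').2).2 hp'

theorem not_cN {p : PK K M lam} {x : K} {y : M} (hx : x < p.a) (hy : y ∈ p.b)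
    (hp : (x, y) ∉ p.G) : p ∈ fnot (meets (cN K M lam x y)) := by
  intro q hq hm
  obtain ⟨r, hr, hr'⟩ := exists_of_meets (down_cN x y) hm
  exact hp (((hr.trans hq).2.2.1 x hx y hy).1 hr')

theorem not_polarized [WellFoundedLT K] [NoMaxOrder K] (h0 : ℵ₀ ≤ lam) (hK : #K = succ lam)
    (hK' : ∀ a : K, #(Iio a) ≤ lam)
    (hKb : ∀ S : Set K, #S ≤ lam → ∃ a, ∀ s ∈ S, s ≤ a)
    (W : Type) (hW : #W = lam) (q0 : PK K M lam) :
    q0 ∈ fnot (PolarizedRel (PK K M lam) K M W) := by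
  classical
  intro q1 _ hq1
  obtain ⟨q, _, A, hA⟩ := mem_fex.1 (hq1 (cN K M lam)) q1 le_rfl
  obtain ⟨r, hr, B, hAs, hBs, hc⟩ := mem_fex.1 hA q le_rfl
  obtain ⟨r1, hr1, R, hR1, hR2, hR3⟩ := mem_fex.1 hBs r le_rfl
  -- decide `lam` elements of the named set of columns
  obtain ⟨r2, hr2, hdec⟩ := exists_forall_mem (h0.trans (le_succ lam)) (dirClosed h0 hKb)
    (N := W) (by rw [hW]; exact lt_succ lam)
    (fun w => {s | ∃ y, s ∈ meets (R w y)} ∪ {s | ¬ ∃ t, t ≤ s ∧ t ≤ r1})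
    (by
      intro w s hs s' hs'
      rcases hs with ⟨y, hy⟩ | hs
      · exact Or.inl ⟨y, down_meets _ _ hy _ hs'⟩
      · exact Or.inr fun ⟨t, ht, ht'⟩ => hs ⟨t, ht.trans hs', ht'⟩)
    (by
      intro w s
      by_cases h : ∃ t, t ≤ s ∧ t ≤ r1
      · obtain ⟨t, ht, ht'⟩ := h
        obtain ⟨t', ht1, y, hy⟩ := IsFun.total (down_IsFun R _ hR1 _ ht') w
        exact ⟨t', ht1.trans ht, Or.inl ⟨y, hy⟩⟩
      · exact ⟨s, le_rfl, Or.inr h⟩) r1
  have hex : ∀ w, ∃ y, r2 ∈ meets (R w y) := by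
    intro w
    rcases hdec w with h | h
    · exact h
    · exact absurd ⟨r2, le_rfl, hr2⟩ h
  choose g hg using hex
  have hginj : Function.Injective g := by
    intro w w' hww
    have h1 := hg w
    have h2 := hg w'
    rw [← hww] at h2
    exact IsInj.eq (down_IsInj R _ hR2 _ hr2) h1 h2
  have hB0 : #(range g) = lam := by rw [mk_range_eq g hginj, hW]
  obtain ⟨r3, hr3, hprom⟩ := exists_promise h0 r2 (range g) hB0
  -- a row of the named set above `r3.a`
  have hAs3 : r3 ∈ HasFullSize A := by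
    have hd : Down (HasFullSize A) :=
      down_fall fun ν => down_fall fun _ => down_fnot _
    exact hd _ hAs _ (hr3.trans (hr2.trans (hr1)))
  obtain ⟨s, hs, x, hx, hsx⟩ : ∃ s ≤ r3, ∃ x, r3.a ≤ x ∧ s ∈ meets (A x) := by
    by_contra hcon
    push Not at hcon
    have h1 := hAs3 lam (by rw [hK]; exact lt_succ lam)
    apply h1 r3 le_rfl
    have h2 : #(Iio r3.a) ≤ #(lam.out) := by rw [mk_out]; exact hK' _
    obtain ⟨e⟩ := h2
    let e' : lam.out → K := fun z => if h : ∃ y : Iio r3.a, e y = z then h.choose.1 else r3.a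
    have he' : ∀ y : Iio r3.a, e' (e y) = y.1 := by
      intro y
      have h3 : ∃ y' : Iio r3.a, e y' = e y := ⟨y, rfl⟩
      show (if h : ∃ y' : Iio r3.a, e y' = e y then h.choose.1 else r3.a) = y.1
      rw [dif_pos h3]
      exact congrArg Subtype.val (e.injective h3.choose_spec)
    refine mem_fex_of_mem (fun z y => {_q | e' z = y}) ?_ ⟨⟨?_, ?_⟩, ?_⟩
    · exact down_fand (down_IsFun _) (down_fall fun _ => down_fimp _ _)
    · intro z
      exact mem_fex_of_mem (e' z) (down_meets _) (meets_of_mem rfl)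
    · intro z y y'
      rw [mem_fimp]
      rintro t _ ⟨k1, k2⟩
      obtain ⟨_, _, _, e1, _⟩ := k1 t le_rfl
      obtain ⟨_, _, _, e2, _⟩ := k2 t le_rfl
      have e1' : e' z = y := e1
      have e2' : e' z = y' := e2
      exact ⟨t, le_rfl, e1'.symm.trans e2'⟩
    · intro y
      rw [mem_fimp]
      intro t ht hty
      rcases lt_or_ge y r3.a with hy | hy
      · refine ⟨t, le_rfl, mem_fex_of_mem (e ⟨y, hy⟩) (down_meets _) (meets_of_mem ?_)⟩
        exact he' ⟨y, hy⟩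
      · exact absurd hty (hcon t ht y hy)
  -- decide this row
  obtain ⟨x', hx'⟩ := exists_gt (max x s.a)
  obtain ⟨s', hs', hsa⟩ := exists_row h0 s x' ((le_max_right x s.a).trans hx'.le)
  have hxs : x < s'.a := by rw [hsa]; exact (le_max_left x s.a).trans_lt hx'
  have hle : s' ≤ r3 := hs'.trans hs
  obtain ⟨⟨y, ⟨w, hw⟩, hy⟩, y', ⟨w', hw'⟩, hy'⟩ := hle.2.2.2.2 x hx hxs (range g) hprom
  have hbsub : range g ⊆ s'.b := (r3.hFb _ hprom).1.trans hle.2.1
  have hyb' : y' ∈ s'.b := hbsub ⟨w', hw'⟩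
  have hmB : ∀ w, s' ∈ meets (B (g w)) := by
    intro w
    have h1 := (hR3 (g w)).2 w
    have hle1 : s' ≤ r1 := hle.trans (hr3.trans hr2)
    have h2 : s' ∈ meets (R w (g w)) := down_meets _ _ (hg w) _ (hle.trans hr3)
    intro t ht
    obtain ⟨t', ht', h3⟩ := mem_fimp.1 h1 t (ht.trans hle1) (down_meets _ _ h2 _ ht)
    obtain ⟨t2, ht2, u, hu, htu⟩ := h3 t' le_rfl
    exact ⟨t2, ht2.trans ht', u, hu, htu⟩
  have hsA : s' ∈ meets (A x) := down_meets _ _ hsx _ hs'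
  have hsB : s' ∈ meets (B y) := by rw [← hw]; exact hmB w
  have hsB' : s' ∈ meets (B y') := by rw [← hw']; exact hmB w'
  have hler : s' ≤ r := hle.trans (hr3.trans (hr2.trans hr1))
  have hfor := (down_fnot _) _ hc _ hler
  simp only [for', fnot, fand, Set.mem_ofPred_eq, not_and_or, not_forall, not_not] at hfor
  rcases hfor s' le_rfl with ⟨t, ht, h'⟩ | ⟨t, ht, h'⟩
  · obtain ⟨t', ht', h4⟩ := mem_fimp.1 (h' x y') t le_rfl
      ⟨down_meets _ _ hsA _ ht, down_meets _ _ hsB' _ ht⟩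
    exact not_cN hxs hyb' hy' t' (ht'.trans ht) h4
  · obtain ⟨t', ht', h4⟩ := mem_fimp.1 (h' x y) t le_rfl
      ⟨down_meets _ _ hsA _ ht, down_meets _ _ hsB _ ht⟩
    exact h4 t' le_rfl (meets_of_mem (down_cN x y _ hy _ (ht'.trans ht)))

end

/-- The forcing notion: cardinals, GCH and the failure of the polarized relation. -/
theorem main (lam : Cardinal.{0}) (h0 : ℵ₀ ≤ lam)
    (hGCH : ∀ ν : Cardinal.{0}, ℵ₀ ≤ ν → 2 ^ ν = succ ν) :
    ∃ (P : Type) (_ : Preorder P), Nonempty P ∧ ∀ p : P,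
      (∀ μ : Cardinal.{0}, μ.IsRegular → p ∈ StaysRegular P μ) ∧ p ∈ ForcesGCH P ∧
      p ∈ fnot (PolarizedRel P (succ lam).ord.ToType (succ (succ lam)).ord.ToType
        lam.ord.ToType) := by
  classical
  let K := (succ lam).ord.ToType
  let M := (succ (succ lam)).ord.ToType
  have hs0 : ℵ₀ ≤ succ lam := h0.trans (le_succ lam)
  have hreg : (succ lam).IsRegular := isRegular_succ h0
  have hK : #K = succ lam := mk_ord_toType _
  have hM : #M = succ (succ lam) := mk_ord_toType _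
  have hK' : ∀ a : K, #(Iio a) ≤ lam := fun a => lt_succ_iff.1 (mk_Iio_toType_ord_lt a)
  have hcof : Order.cof K = succ lam := by
    show Order.cof (succ lam).ord.ToType = succ lam
    rw [Ordinal.cof_toType]
    exact hreg.cof_ord
  have hKb : ∀ S : Set K, #S ≤ lam → ∃ a, ∀ s ∈ S, s ≤ a := by
    intro S hS
    have hnc : ¬ IsCofinal S := by
      intro h
      have h1 := Order.cof_le h
      rw [hcof] at h1
      exact absurd (h1.trans hS) (not_le.2 (lt_succ lam))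
    unfold IsCofinal at hnc
    push Not at hnc
    obtain ⟨b, hb⟩ := hnc
    exact ⟨b, fun s hs => (hb s hs).le⟩
  haveI : NoMaxOrder K := by
    refine ⟨fun a => ?_⟩
    by_contra hcon
    push Not at hcon
    have h1 : (univ : Set K) ⊆ insert a (Iio a) := by
      intro x _
      rcases eq_or_lt_of_le (hcon x) with h | h
      · exact Or.inl h
      · exact Or.inr h
    have h2 := mk_le_mk_of_subset h1
    rw [mk_univ, hK] at h2
    have h3 : #(insert a (Iio a) : Set K) ≤ lam :=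
      mk_insert_le.trans ((add_le_add (hK' a) (one_le_aleph0.trans h0)).trans (add_eq_self h0).le)
    exact absurd (h2.trans h3) (not_le.2 (lt_succ lam))
  have hKne : Nonempty K := by
    rw [← mk_ne_zero_iff, hK]
    exact (aleph0_pos.trans_le hs0).ne'
  have hclosed : DirClosed (succ lam) (PK K M lam) := dirClosed h0 hKb
  have hcc : ∀ (ι : Type) (f : ι → PK K M lam), succ (succ lam) ≤ #ι →
      ∃ i j, i ≠ j ∧ ∃ r, r ≤ f i ∧ r ≤ f j := fun ι f hι => cc h0 (hGCH lam h0) hK hK' ι f hι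
  have hcard : #(PK K M lam) ≤ succ (succ lam) := card_le h0 (hGCH _ hs0) hK hK' hM
  refine ⟨PK K M lam, inferInstance, ⟨⟨hKne.some, ∅, ∅, ∅, by simp, by simp, by simp, by simp⟩⟩,
    fun p => ⟨fun μ hμ => ?_, ?_, ?_⟩⟩
  · rcases le_or_gt μ (succ lam) with h | h
    · exact staysRegular_proj hμ
        (fun N D hN hd hdense q =>
          exists_forall_mem hs0 hclosed (hN.trans_le h) D hd hdense q)
        id (fun a b h => h) (fun a q' h => ⟨q', h, le_rfl⟩) (fun q' => ⟨q', le_rfl⟩) p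
    · exact staysRegular_of_cc' hμ (fun ι f hf => hcc ι f ((succ_le_of_lt h).trans hf)) p
  · intro ν hν
    refine mem_fex_of_mem (succ ν) (down_fand (down_fex _) (gch_down_coll _ _)) ⟨?_, ?_⟩
    · rcases le_or_gt ν lam with h | h
      · exact powOnto_of_dirClosed hs0 hclosed (h.trans_lt (lt_succ lam)) (hGCH ν hν).le p
      · have h1 : succ lam ≤ ν := succ_le_of_lt h
        obtain ⟨F, hF⟩ := exists_nice_enum (Q := PK K M lam) (χ := succ (succ lam)) (ν := ν)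
          (μ := succ ν) hcc (by
            rw [← hGCH ν hν]
            refine card_nice' hν (hcard.trans ?_) (succ_le_succ h1)
            rw [hGCH ν hν]
            exact succ_le_succ h1) (succ_ne_bot ν)
        exact powOnto_of_enum hF p
    · exact gch_ground _ _ (fun ρ hρ => lt_succ_iff.1 hρ) p
  · exact not_polarized h0 hK hK' hKb _ (mk_ord_toType _) p

end Pool.Agent.V8H48.PN
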